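import Pool.Agent.N205.WT.Stm

/-!
# WT/7: roots of `X^g R(X + 2/X)` from sign changes of `R` (MP_e32a7e_nt)
-/

set_option autoImplicit false

namespace Pool.Agent.N277.WT

open Polynomial
open Pool.Agent.N205.WT (PR S_RROOT)

/-- a quadratic equation with real middle coefficient -/
theorem quad {x : ℂ} {y : ℝ} (hy : y ^ 2 < 8) (h : x ^ 2 - y * x + 2 = 0) :
    ‖x‖ = Real.sqrt 2 ∧ x.im ≠ 0 := by
  have hre := congrArg Complex.re h
  have him := congrArg Complex.im h
  simp [pow_two] at hre him
  have hv : x.im ≠ 0 := by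
    intro hv
    rw [hv] at hre
    nlinarith [sq_nonneg (2 * x.re - y)]
  refine ⟨?_, hv⟩
  have hu : 2 * x.re - y = 0 := by
    have : x.im * (2 * x.re - y) = 0 := by linarith
    rcases mul_eq_zero.1 this with h1 | h1
    · exact absurd h1 hv
    · exact h1
  rw [Complex.norm_def, Complex.normSq_apply]
  congr 1
  have hy2 : y = 2 * x.re := by linarith
  rw [hy2] at hre
  linarith

theorem roots_list (g : ℕ) (r : ℕ → ℤ) (t : ℕ → ℚ)
    (ht : ∀ i ≤ g, t i ^ 2 < 8) (hlt : ∀ i < g, t i < t (i + 1))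
    (hs : ∀ i ≤ g, 0 < (-1) ^ (g - i) * ∑ j ∈ Finset.range (g + 1), (r j : ℚ) * t i ^ j) :
    ∃ s : ℕ → ℝ, (∀ i < g, s i ^ 2 < 8 ∧ (t i : ℝ) < s i ∧ s i < (t (i + 1) : ℝ)) ∧
      ∀ i < g, ∑ j ∈ Finset.range (g + 1), (r j : ℝ) * s i ^ j = 0 := by
  have key : ∀ i : ℕ, ∃ s : ℝ, i < g → ((s ^ 2 < 8 ∧ (t i : ℝ) < s ∧ s < (t (i + 1) : ℝ)) ∧
      ∑ j ∈ Finset.range (g + 1), (r j : ℝ) * s ^ j = 0) := by
    intro i
    by_cases hi : i < g
    swap
    · exact ⟨0, fun h => absurd h hi⟩
    set F : ℝ → ℝ := fun s => ∑ j ∈ Finset.range (g + 1), (r j : ℝ) * s ^ j with hF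
    have hc : Continuous F := by
      rw [hF]
      fun_prop
    have hti : (t i : ℝ) < t (i + 1) := by exact_mod_cast hlt i hi
    have e : ∀ k : ℕ, F (t k) = ((∑ j ∈ Finset.range (g + 1), (r j : ℚ) * t k ^ j : ℚ) : ℝ) := by
      intro k
      rw [hF]
      push_cast
      rfl
    have h1 := hs i hi.le
    have h2 := hs (i + 1) hi
    have h1' : 0 < (-1 : ℝ) ^ (g - i) * F (t i) := by
      rw [e]
      exact_mod_cast h1
    have h2' : 0 < (-1 : ℝ) ^ (g - (i + 1)) * F (t (i + 1)) := by
      rw [e]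
      exact_mod_cast h2
    have hgi : g - i = (g - (i + 1)) + 1 := by omega
    rw [hgi, pow_succ] at h1'
    obtain ⟨s, ⟨a, b⟩, hz⟩ : ∃ s ∈ Set.Ioo (t i : ℝ) (t (i + 1) : ℝ), F s = 0 := by
      rcases neg_one_pow_eq_or ℝ (g - (i + 1)) with hp | hp
      · rw [hp] at h1' h2'
        obtain ⟨s, hs1, hs2⟩ := intermediate_value_Ioo hti.le hc.continuousOn
          (show (0 : ℝ) ∈ Set.Ioo (F (t i)) (F (t (i + 1))) from ⟨by linarith, by linarith⟩)
        exact ⟨s, hs1, hs2⟩
      · rw [hp] at h1' h2'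
        obtain ⟨s, hs1, hs2⟩ := intermediate_value_Ioo' hti.le hc.continuousOn
          (show (0 : ℝ) ∈ Set.Ioo (F (t (i + 1))) (F (t i)) from ⟨by linarith, by linarith⟩)
        exact ⟨s, hs1, hs2⟩
    have q1 : (t i : ℝ) ^ 2 < 8 := by exact_mod_cast ht i hi.le
    have q2 : (t (i + 1) : ℝ) ^ 2 < 8 := by exact_mod_cast ht (i + 1) hi
    refine ⟨s, fun _ => ⟨⟨?_, a, b⟩, hz⟩⟩
    rcases le_or_gt 0 s with h0 | h0
    · nlinarith
    · nlinarith
  choose s hs' using key
  exact ⟨s, fun i hi => (hs' i hi).1, fun i hi => (hs' i hi).2⟩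

theorem t_rroot : S_RROOT := by
  intro g r t hg hrg ht hlt hs x hx
  obtain ⟨s, hs1, hs2⟩ := roots_list g r t ht hlt hs
  have haev : aeval x (PR g r) =
      ∑ j ∈ Finset.range (g + 1), (r j : ℂ) * x ^ (g - j) * (x ^ 2 + 2) ^ j := by
    unfold Pool.Agent.N205.WT.PR
    rw [map_sum]
    refine Finset.sum_congr rfl fun j _ => ?_
    simp only [map_mul, map_pow, map_add, aeval_X, aeval_C, map_ofNat]
    simp
  rw [haev] at hx
  have hx0 : x ≠ 0 := by
    rintro rfl
    rw [Finset.sum_eq_single g] at hx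
    · simp [hrg] at hx
    · intro j hj hjg
      have : g - j ≠ 0 := by
        have := Finset.mem_range.1 hj
        omega
      simp [this]
    · intro h
      exact absurd (Finset.mem_range.2 (by omega)) h
  set y : ℂ := x + 2 / x with hy
  have hxy : x * y = x ^ 2 + 2 := by
    rw [hy]
    field_simp
  have hRy : ∑ j ∈ Finset.range (g + 1), (r j : ℂ) * y ^ j = 0 := by
    refine mul_left_cancel₀ (pow_ne_zero g hx0) ?_
    rw [mul_zero, Finset.mul_sum, ← hx]
    refine Finset.sum_congr rfl fun j hj => ?_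
    have hj' : j ≤ g := by
      have := Finset.mem_range.1 hj
      omega
    rw [← hxy, mul_pow]
    have e : x ^ g = x ^ (g - j) * x ^ j := by
      rw [← pow_add]
      congr 1
      omega
    rw [e]
    ring
  have hyt : ∃ i < g, y = (s i : ℂ) := by
    by_contra hcon
    push Not at hcon
    set Hp : ℂ[X] := ∑ j ∈ Finset.range (g + 1), C (r j : ℂ) * X ^ j with hHp
    have hdeg : Hp.natDegree ≤ g := by
      rw [hHp]
      refine natDegree_sum_le_of_forall_le _ _ fun j hj => ?_
      have := Finset.mem_range.1 hj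
      exact (natDegree_C_mul_X_pow_le _ _).trans (by omega)
    have hlt2 : ∀ i j : ℕ, i < j → j ≤ g → (t i : ℝ) < t j := by
      intro i j hij
      induction j, hij using Nat.le_induction with
      | base => intro h; exact_mod_cast hlt i h
      | succ n hn ih =>
        intro h
        have h1 := ih (by omega)
        have h2 : (t n : ℝ) < t (n + 1) := by exact_mod_cast hlt n (by omega)
        linarith
    have hmono : ∀ i j : ℕ, i < j → j < g → s i < s j := by
      intro i j hij hj
      have a1 := (hs1 i (by omega)).2.2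
      have a2 := (hs1 j hj).2.1
      have a3 : (t (i + 1) : ℝ) ≤ t j := by
        rcases Nat.lt_or_ge (i + 1) j with h | h
        · exact (hlt2 (i + 1) j h hj.le).le
        · have : i + 1 = j := by omega
          rw [this]
      linarith
    have hinj : Set.InjOn (fun i => (s i : ℂ)) (Finset.range g : Finset ℕ) := by
      intro i hi j hj hij
      have hi' := Finset.mem_range.1 (Finset.mem_coe.1 hi)
      have hj' := Finset.mem_range.1 (Finset.mem_coe.1 hj)
      have hij' : s i = s j := Complex.ofReal_injective hij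
      rcases Nat.lt_trichotomy i j with h | h | h
      · exact absurd hij' (hmono i j h hj').ne
      · exact h
      · exact absurd hij'.symm (hmono j i h hi').ne
    set S : Finset ℂ := insert y ((Finset.range g).image (fun i => (s i : ℂ))) with hS
    have hScard : S.card = g + 1 := by
      rw [hS, Finset.card_insert_of_notMem, Finset.card_image_of_injOn hinj, Finset.card_range]
      intro hmem
      obtain ⟨i, hi, hie⟩ := Finset.mem_image.1 hmem
      exact hcon i (Finset.mem_range.1 hi) hie.symm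
    have hevz : ∀ z : ℂ, Hp.eval z = ∑ j ∈ Finset.range (g + 1), (r j : ℂ) * z ^ j := by
      intro z
      rw [hHp, eval_finsetSum]
      refine Finset.sum_congr rfl fun j _ => ?_
      simp
    have hev : ∀ z ∈ S, Hp.eval z = 0 := by
      intro z hz
      rw [hevz]
      rcases Finset.mem_insert.1 hz with rfl | hz
      · exact hRy
      · obtain ⟨i, hi, rfl⟩ := Finset.mem_image.1 hz
        have := hs2 i (Finset.mem_range.1 hi)
        exact_mod_cast this
    have h0 := Polynomial.eq_zero_of_natDegree_lt_card_of_eval_eq_zero' Hp S hev (by omega)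
    have h4 : Hp.coeff g = 1 := by
      rw [hHp, finsetSum_coeff, Finset.sum_eq_single g]
      · simp [hrg]
      · intro j hj hjg
        simp [coeff_X_pow, Ne.symm hjg]
      · intro h
        exact absurd (Finset.mem_range.2 (by omega)) h
    rw [h0] at h4
    simp at h4
  obtain ⟨i, hi, hyi⟩ := hyt
  refine quad (hs1 i hi).1 ?_
  rw [← hyi]
  linear_combination -hxy

end Pool.Agent.N277.WT
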